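import Pool.Agent.H999R5.Inj.Defs

/-! Task TR of project INJ (helper999): monotonicity of the trace. -/

set_option autoImplicit false

namespace Pool.Agent.H999R5.Inj

open Finset
open scoped Matrix

theorem t_TR : S_TR := by
  intro d S X hS hX j
  have hXj : (X ^ j)ᵀ = X ^ j := by
    rw [Matrix.transpose_pow, hX]
  have hpos : ((X ^ j)ᴴ * (1 - S) * (X ^ j)).PosSemidef := hS.conjTranspose_mul_mul_same (X ^ j)
  have htr : 0 ≤ ((X ^ j)ᴴ * (1 - S) * (X ^ j)).trace := hpos.trace_nonneg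
  have hH : (X ^ j)ᴴ = X ^ j := by
    rw [Matrix.conjTranspose_eq_transpose_of_trivial, hXj]
  rw [hH] at htr
  have h1 : (X ^ j * (1 - S) * X ^ j).trace = (X ^ (2 * j)).trace - (S * X ^ (2 * j)).trace := by
    rw [Matrix.trace_mul_comm, ← Matrix.mul_assoc, ← pow_add, ← two_mul, Matrix.trace_mul_comm,
      sub_mul, one_mul, Matrix.trace_sub]
  linarith
end Pool.Agent.H999R5.Inj
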